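import Pool.Agent.Helper51.CX.St
import Pool.Agent.Helper62.CX.Rank

set_option autoImplicit false

/-!
# Project CX (MP_a41ee4_co), module RF: rank, second step.
-/

namespace Pool.Agent.Helper98.CX

open Module Pool.Agent.Helper51.CX

section

variable {K : Type} [Field K] [LinearOrder K] [IsStrictOrderedRing K]

/-- One form for a pair of rows `c z5 ∓ g z`. -/
theorem exG (g : Dual K (Fin 6 → K)) (c : K) (hc : 0 < c) (d : Fin 6 → K) :
    ∃ f : Dual K (Fin 6 → K), ∀ x : Fin 6 → K, (|g d| = c * |d 5| → f x = 0) → (d 5 = 0 → x 5 = 0) →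
      ∀ t : K, (t = 1 ∨ t = -1) → c * d 5 - t * g d = 0 → c * x 5 - t * g x = 0 := by
  have habs : ∀ t : K, (t = 1 ∨ t = -1) → c * d 5 - t * g d = 0 → |g d| = c * |d 5| := by
    intro t ht h
    have h1 : |t| = 1 := by
      rcases ht with ht | ht
      · rw [ht, abs_one]
      · rw [ht, abs_neg, abs_one]
    have h2 : t * g d = c * d 5 := by linarith
    have h3 : |t * g d| = |c * d 5| := by rw [h2]
    rw [abs_mul, abs_mul, h1, abs_of_pos hc, one_mul] at h3
    exact h3
  by_cases h5 : d 5 = 0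
  · refine ⟨g, fun x hx hx5 t ht h => ?_⟩
    have h1 := hx (habs t ht h)
    rw [hx5 h5, h1]
    ring
  · by_cases hg : |g d| = c * |d 5|
    · have h1 : |g d| = |c * d 5| := by rw [hg, abs_mul, abs_of_pos hc]
      have h2 : ∃ t0 : K, (t0 = 1 ∨ t0 = -1) ∧ c * d 5 - t0 * g d = 0 := by
        rcases abs_eq_abs.1 h1 with h | h
        · exact ⟨1, Or.inl rfl, by rw [h]; ring⟩
        · exact ⟨-1, Or.inr rfl, by rw [h]; ring⟩
      obtain ⟨t0, ht0, hd0⟩ := h2
      refine ⟨c • (LinearMap.proj 5 : Dual K (Fin 6 → K)) - t0 • g, fun x hx _ t ht h => ?_⟩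
      have h3 := hx hg
      have h4 : c * x 5 - t0 * g x = 0 := by
        simpa [LinearMap.sub_apply, LinearMap.smul_apply] using h3
      have h5' : c * d 5 ≠ 0 := mul_ne_zero hc.ne' h5
      have h6 : t = t0 := by
        rcases ht with ht | ht <;> rcases ht0 with ht0 | ht0
        · rw [ht, ht0]
        · exfalso
          rw [ht] at h
          rw [ht0] at hd0
          apply h5'
          linarith
        · exfalso
          rw [ht] at h
          rw [ht0] at hd0
          apply h5'
          linarith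
        · rw [ht, ht0]
      rw [h6]
      exact h4
    · exact ⟨0, fun x _ _ t ht h => absurd (habs t ht h) hg⟩

/-- The form of the rows `RY`. -/
def gY : Dual K (Fin 6 → K) where
  toFun z := z 1 - (z 2 + 3 * z 3 + 9 * z 4)
  map_add' z w := by simp only [Pi.add_apply]; ring
  map_smul' a z := by simp only [Pi.smul_apply, smul_eq_mul, RingHom.id_apply]; ring

theorem gY_apply (z : Fin 6 → K) : gY z = z 1 - (z 2 + 3 * z 3 + 9 * z 4) := rfl

/-- The form of the first alternative. -/
theorem exA (j : ℕ) (hj : j < 64) (d : Fin 6 → K) (k0 : ℕ) (hk : ∀ k < 66, k ≠ j → Mem k d → k = k0) :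
    ∃ f : Dual K (Fin 6 → K), ∀ x : Fin 6 → K, L j x = 0 → ((k0 < 66 ∧ k0 ≠ j ∧ Mem k0 d) → f x = 0) →
      (∀ k < 64, L k d = 0 → L k x = 0) ∧
      (∀ t : K, (t = 1 ∨ t = -1) → 50 * d 5 - t * d 0 = 0 → 50 * x 5 - t * x 0 = 0) ∧ (d 5 = 0 → x 5 = 0) := by
  have h64 : d 5 = 0 → 64 = k0 := fun h => hk 64 (by norm_num) (by omega) ((Mem_64 d).2 h)
  have h65 : ∀ t : K, (t = 1 ∨ t = -1) → 50 * d 5 - t * d 0 = 0 → |d 0| = 50 * |d 5| := by
    intro t ht h
    have h1 : |t| = 1 := by
      rcases ht with ht | ht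
      · rw [ht, abs_one]
      · rw [ht, abs_neg, abs_one]
    have h2 : t * d 0 = 50 * d 5 := by linarith
    have h3 : |t * d 0| = |50 * d 5| := by rw [h2]
    rw [abs_mul, abs_mul, h1, one_mul] at h3
    rw [h3]
    congr 1
    exact abs_of_pos (by norm_num)
  have h65' : ∀ t : K, (t = 1 ∨ t = -1) → 50 * d 5 - t * d 0 = 0 → 65 = k0 := fun t ht h =>
    hk 65 (by norm_num) (by omega) ((Mem_65 d).2 (h65 t ht h))
  by_cases hA : k0 < 66 ∧ k0 ≠ j ∧ Mem k0 d
  · obtain ⟨ha, hb, hc⟩ := hA
    by_cases h0 : k0 < 64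
    · refine ⟨VR K k0, fun x hx hf => ⟨fun k hk' hkd => ?_, fun t ht h => ?_, fun h => ?_⟩⟩
      · by_cases hkj : k = j
        · rw [hkj]; exact hx
        · have h1 := hk k (by omega) hkj ((Mem_lt hk' d).2 hkd)
          have h2 := hf ⟨ha, hb, hc⟩
          rw [VR_apply, neg_eq_zero] at h2
          rw [h1]
          exact h2
      · have := h65' t ht h
        omega
      · have := h64 h
        omega
    · by_cases h1 : k0 = 64
      · refine ⟨LinearMap.proj 5, fun x hx hf => ⟨fun k hk' hkd => ?_, fun t ht h => ?_, fun _ => ?_⟩⟩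
        · by_cases hkj : k = j
          · rw [hkj]; exact hx
          · have h2 := hk k (by omega) hkj ((Mem_lt hk' d).2 hkd)
            omega
        · have := h65' t ht h
          omega
        · exact hf ⟨ha, hb, hc⟩
      · have h2 : k0 = 65 := by omega
        obtain ⟨f, hf⟩ := exG (LinearMap.proj 0 : Dual K (Fin 6 → K)) 50 (by norm_num) d
        have h3 : |d 0| = 50 * |d 5| := by
          rw [h2] at hc
          exact (Mem_65 d).1 hc
        refine ⟨f, fun x hx hfx => ⟨fun k hk' hkd => ?_, fun t ht h => ?_, fun h => ?_⟩⟩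
        · by_cases hkj : k = j
          · rw [hkj]; exact hx
          · have h4 := hk k (by omega) hkj ((Mem_lt hk' d).2 hkd)
            omega
        · exact hf x (fun _ => hfx ⟨ha, hb, hc⟩) (fun h5 => absurd (h64 h5) (by omega)) t ht h
        · have := h64 h
          omega
  · have key : ∀ k < 66, k ≠ j → ¬ Mem k d := fun k h1 h2 h3 => by
      have h4 := hk k h1 h2 h3
      apply hA
      rw [← h4]
      exact ⟨h1, h2, h3⟩
    refine ⟨0, fun x hx _ => ⟨fun k hk' hkd => ?_, fun t ht h => ?_, fun h => ?_⟩⟩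
    · by_cases hkj : k = j
      · rw [hkj]; exact hx
      · exact absurd ((Mem_lt hk' d).2 hkd) (key k (by omega) hkj)
    · exact absurd ((Mem_65 d).2 (h65 t ht h)) (key 65 (by norm_num) (by omega))
    · exact absurd ((Mem_64 d).2 h) (key 64 (by norm_num) (by omega))

/-- The rows have trivial common kernel. -/
theorem hsp (x : Fin 6 → K) (h : ∀ n, cc K n x = 0) : x = 0 := by
  have h1 := (forall_rows (K := K) (fun φ _ => φ x = 0)).1 h
  obtain ⟨_, a0, a1, b0, b1, c0, c1, d0, d1, e0, e1⟩ := h1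
  simp only [RX_apply, RY_apply, RZ_apply] at a0 a1 b0 b1 c0 c1 d0 d1 e0 e1
  have x5 : x 5 = 0 := by linarith
  have x0 : x 0 = 0 := by linarith
  have x2 : x 2 = 0 := by linarith
  have x3 : x 3 = 0 := by linarith
  have x4 : x 4 = 0 := by linarith
  have x1 : x 1 = 0 := by linarith
  funext i
  fin_cases i <;> assumption

/-- The five forms. -/
theorem core (j : ℕ) (hj : j < 64) (d : Fin 6 → K) (k0 : ℕ) (hk : ∀ k < 66, k ≠ j → Mem k d → k = k0) :
    ∃ fA fY f2 f3 f4 : Dual K (Fin 6 → K), ∀ x : Fin 6 → K, VR K j x = 0 →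
      ((k0 < 66 ∧ k0 ≠ j ∧ Mem k0 d) → fA x = 0) → (MY d → fY x = 0) → (MZ 2 d → f2 x = 0) →
      (MZ 3 d → f3 x = 0) → (MZ 4 d → f4 x = 0) → ∀ n, cc K n d = 0 → cc K n x = 0 := by
  obtain ⟨fA, hA⟩ := exA j hj d k0 hk
  obtain ⟨fY, hY⟩ := exG (gY : Dual K (Fin 6 → K)) 50 (by norm_num) d
  obtain ⟨f2, h2⟩ := exG (LinearMap.proj 2 : Dual K (Fin 6 → K)) 1 one_pos d
  obtain ⟨f3, h3⟩ := exG (LinearMap.proj 3 : Dual K (Fin 6 → K)) 1 one_pos d
  obtain ⟨f4, h4⟩ := exG (LinearMap.proj 4 : Dual K (Fin 6 → K)) 1 one_pos d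
  refine ⟨fA, fY, f2, f3, f4, fun x hx gA gY' g2 g3 g4 => ?_⟩
  have hx' : L j x = 0 := by
    rw [VR_apply, neg_eq_zero] at hx
    exact hx
  obtain ⟨hV, hX, h5⟩ := hA x hx' gA
  have hY' := hY x (fun h => gY' h) h5
  have h2' := h2 x (fun h => g2 (by rw [one_mul] at h; exact h)) h5
  have h3' := h3 x (fun h => g3 (by rw [one_mul] at h; exact h)) h5
  have h4' := h4 x (fun h => g4 (by rw [one_mul] at h; exact h)) h5
  refine (forall_rows (K := K) (fun φ _ => φ d = 0 → φ x = 0)).2
    ⟨fun k hk' h => ?_, fun h => ?_, fun h => ?_, fun h => ?_, fun h => ?_, fun h => ?_, fun h => ?_, fun h => ?_,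
      fun h => ?_, fun h => ?_, fun h => ?_⟩
  · rw [VR_apply, neg_eq_zero] at h ⊢
    exact hV k hk' h
  · exact hX 1 (Or.inl rfl) h
  · exact hX (-1) (Or.inr rfl) h
  · exact hY' 1 (Or.inl rfl) h
  · exact hY' (-1) (Or.inr rfl) h
  · rw [RZ_apply] at h ⊢
    have := h2' 1 (Or.inl rfl) (by rw [one_mul]; exact h)
    rw [one_mul] at this
    exact this
  · rw [RZ_apply] at h ⊢
    have := h2' (-1) (Or.inr rfl) (by rw [one_mul]; exact h)
    rw [one_mul] at this
    exact this
  · rw [RZ_apply] at h ⊢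
    have := h3' 1 (Or.inl rfl) (by rw [one_mul]; exact h)
    rw [one_mul] at this
    exact this
  · rw [RZ_apply] at h ⊢
    have := h3' (-1) (Or.inr rfl) (by rw [one_mul]; exact h)
    rw [one_mul] at this
    exact this
  · rw [RZ_apply] at h ⊢
    have := h4' 1 (Or.inl rfl) (by rw [one_mul]; exact h)
    rw [one_mul] at this
    exact this
  · rw [RZ_apply] at h ⊢
    have := h4' (-1) (Or.inr rfl) (by rw [one_mul]; exact h)
    rw [one_mul] at this
    exact this

/-- Four forms are not enough. -/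
theorem four (d : Fin 6 → K) (hd : Pool.Agent.Helper4.CD.IsCircuit (cc K) d) (a b c e : Dual K (Fin 6 → K))
    (h : ∀ x : Fin 6 → K, a x = 0 → b x = 0 → c x = 0 → e x = 0 → ∀ n, cc K n d = 0 → cc K n x = 0) : False := by
  refine Pool.Agent.Helper62.CX.rank_lemma (cc K) d hd hsp 4 ![a, b, c, e] ?_ ?_
  · rw [Module.finrank_fin_fun]
  · intro n hn x hx
    exact h x (hx 0) (hx 1) (hx 2) (hx 3) n hn

end

theorem hRF : StRF := by
  intro K _ _ _ j hj1 hj d hd hjd k0 hk
  obtain ⟨fA, fY, f2, f3, f4, hc⟩ := core j hj d k0 hk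
  refine ⟨?_, ?_, ?_⟩
  · by_contra hcon
    rw [not_or] at hcon
    exact four d hd (VR K j) f2 f3 f4 (fun x a b c e => hc x a (fun h => absurd h hcon.1)
      (fun h => absurd h hcon.2) (fun _ => b) (fun _ => c) (fun _ => e))
  · intro a ha
    constructor
    · by_contra hcon
      rw [not_or] at hcon
      rcases ha with ha | ha | ha <;> rw [ha] at hcon
      · exact four d hd (VR K j) fY f3 f4 (fun x a b c e => hc x a (fun h => absurd h hcon.1)
          (fun _ => b) (fun h => absurd h hcon.2) (fun _ => c) (fun _ => e))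
      · exact four d hd (VR K j) fY f2 f4 (fun x a b c e => hc x a (fun h => absurd h hcon.1)
          (fun _ => b) (fun _ => c) (fun h => absurd h hcon.2) (fun _ => e))
      · exact four d hd (VR K j) fY f2 f3 (fun x a b c e => hc x a (fun h => absurd h hcon.1)
          (fun _ => b) (fun _ => c) (fun _ => e) (fun h => absurd h hcon.2))
    · by_contra hcon
      rw [not_or] at hcon
      rcases ha with ha | ha | ha <;> rw [ha] at hcon
      · exact four d hd (VR K j) fA f3 f4 (fun x a b c e => hc x a (fun _ => b) (fun h => absurd h hcon.1)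
          (fun h => absurd h hcon.2) (fun _ => c) (fun _ => e))
      · exact four d hd (VR K j) fA f2 f4 (fun x a b c e => hc x a (fun _ => b) (fun h => absurd h hcon.1)
          (fun _ => c) (fun h => absurd h hcon.2) (fun _ => e))
      · exact four d hd (VR K j) fA f2 f3 (fun x a b c e => hc x a (fun _ => b) (fun h => absurd h hcon.1)
          (fun _ => c) (fun _ => e) (fun h => absurd h hcon.2))
  · intro a b ha hb hab
    have h23 : MZ 2 d ∨ MZ 3 d := by
      by_contra hcon
      rw [not_or] at hcon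
      exact four d hd (VR K j) fA fY f4 (fun x a b c e => hc x a (fun _ => b) (fun _ => c)
        (fun h => absurd h hcon.1) (fun h => absurd h hcon.2) (fun _ => e))
    have h24 : MZ 2 d ∨ MZ 4 d := by
      by_contra hcon
      rw [not_or] at hcon
      exact four d hd (VR K j) fA fY f3 (fun x a b c e => hc x a (fun _ => b) (fun _ => c)
        (fun h => absurd h hcon.1) (fun _ => e) (fun h => absurd h hcon.2))
    have h34 : MZ 3 d ∨ MZ 4 d := by
      by_contra hcon
      rw [not_or] at hcon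
      exact four d hd (VR K j) fA fY f2 (fun x a b c e => hc x a (fun _ => b) (fun _ => c)
        (fun _ => e) (fun h => absurd h hcon.1) (fun h => absurd h hcon.2))
    rcases ha with ha | ha | ha <;> rcases hb with hb | hb | hb
    · exact absurd (ha.trans hb.symm) hab
    · rw [ha, hb]; exact h23
    · rw [ha, hb]; exact h24
    · rw [ha, hb]; exact h23.symm
    · exact absurd (ha.trans hb.symm) hab
    · rw [ha, hb]; exact h34
    · rw [ha, hb]; exact h24.symm
    · rw [ha, hb]; exact h34.symm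
    · exact absurd (ha.trans hb.symm) hab

end Pool.Agent.Helper98.CX
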